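import Pool.Agent.R448.TW.Split

set_option autoImplicit false

/-! Factors of a multigraph containing prescribed subgraphs (after `R448.TW.factors`). -/

namespace Pool.Agent.N347.LA

open Finset

/-- Splitting of an amalgamated graph into factors containing prescribed subgraphs. -/
theorem factors {B : Type} [Fintype B] [DecidableEq B] (N : ℕ) (T : B → B → ℕ)
    (hTs : ∀ b b', T b b' = T b' b) (hTd : ∀ b, Even (T b b)) (J : Fin N → B → B → ℕ)
    (hJs : ∀ i b b', J i b b' = J i b' b) (hJd : ∀ i b, J i b b = 0) (d a m : B → ℕ)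
    (hJ : ∀ i b, ∑ b', J i b b' = d b) (hm : ∀ b, m b = d b + 2 * a b)
    (hT : ∀ b, ∑ b', T b b' = N * m b) (hle : ∀ b b', ∑ i, J i b b' ≤ T b b') :
    ∃ C : Fin N → B → B → ℕ, (∀ i b b', C i b b' = C i b' b) ∧ (∀ i b, Even (C i b b)) ∧
      (∀ i b, ∑ b', C i b b' = m b) ∧ (∀ b b', ∑ i, C i b b' = T b b') ∧
      ∀ i b b', J i b b' ≤ C i b b' := by
  obtain ⟨D, hD1, hD2, hD3⟩ := R448.TW.half (fun b b' => T b b' - ∑ i, J i b b')
    (fun b b' => by rw [hTs b b', sum_congr rfl fun i _ => hJs i b b'])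
    (fun b => by
      rw [sum_congr rfl fun i _ => hJd i b, sum_const_zero, Nat.sub_zero]
      exact hTd b) (fun b => N * a b) (fun b => by
      have h1 : ∑ b', (T b b' - ∑ i, J i b b') + ∑ b', ∑ i, J i b b' = ∑ b', T b b' := by
        rw [← sum_add_distrib]
        exact sum_congr rfl fun b' _ => Nat.sub_add_cancel (hle b b')
      rw [hT b, sum_comm, sum_congr rfl fun i _ => hJ i b, sum_const, card_univ, Fintype.card_fin,
        smul_eq_mul, hm b] at h1
      have h2 : N * (d b + 2 * a b) = N * d b + 2 * (N * a b) := by ring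
      omega)
  obtain ⟨X, hX1, hX2, hX3⟩ := R448.TW.split D N a hD2 hD3
  refine ⟨fun i b b' => J i b b' + (X i b b' + X i b' b), fun i b b' => ?_, fun i b => ?_,
    fun i b => ?_, fun b b' => ?_, fun i b b' => Nat.le_add_right _ _⟩
  · show J i b b' + (X i b b' + X i b' b) = J i b' b + (X i b' b + X i b b')
    rw [hJs i b b']
    ring
  · show Even (J i b b + (X i b b + X i b b))
    rw [hJd, zero_add]
    exact ⟨_, rfl⟩
  · rw [sum_add_distrib, sum_add_distrib, hJ, hX1, hX2, hm b]
    ring
  · rw [sum_add_distrib, sum_add_distrib, hX3, hX3, hD1]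
    exact Nat.add_sub_cancel' (hle b b')

end Pool.Agent.N347.LA
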