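import Mathlib

set_option autoImplicit false

/-!
# Linear arboricity of graphs with large twin classes: definitions

`R` is a symmetric relation on the set `V` of classes (`R v v` means that the class `v` is a clique,
otherwise it is independent).  The vertices of the current graph `A` are mapped to `V` by `p` and
have weights `ω`.  A state consists of `k` multigraphs `m c` on `A` (`m c a a` is twice the number of
loops at `a`) and numbers `z c` of edges to an outer vertex such that in every colour the vertex `a`
has degree `2 * ω a`, for two `R`-related vertices `a ≠ b` there are `ω a * ω b` edges altogether,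
and every vertex is connected to the outer vertex in every colour.
If all weights are `1`, the colour classes are linear forests.
-/

namespace Pool.Agent.N347.LA

open Finset

/-- Every vertex reaches, along pairs `u v` with `0 < m u v`, a vertex `y` with `0 < z y`. -/
def Conn {A : Type} (m : A → A → ℕ) (z : A → ℕ) : Prop :=
  ∀ x, ∃ y, Relation.ReflTransGen (fun u v => 0 < m u v) x y ∧ 0 < z y

/-- States, see above. -/
structure IsState {V : Type} (R : V → V → Prop) (k : ℕ) {A : Type} [Fintype A] (p : A → V)
    (ω : A → ℕ) (m : Fin k → A → A → ℕ) (z : Fin k → A → ℕ) : Prop where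
  pos : ∀ a, 1 ≤ ω a
  symm : ∀ c a b, m c a b = m c b a
  even : ∀ c a, Even (m c a a)
  deg : ∀ c a, ∑ b, m c a b + z c a = 2 * ω a
  adj : ∀ a b, a ≠ b → R (p a) (p b) → ∑ c, m c a b = ω a * ω b
  loop : ∀ a, R (p a) (p a) → ∑ c, m c a a = ω a * (ω a - 1)
  nadj : ∀ c a b, ¬ R (p a) (p b) → m c a b = 0
  conn : ∀ c, Conn (m c) (z c)

/-- There is a state with these weights. -/
def HasState {V : Type} (R : V → V → Prop) (k : ℕ) {A : Type} [Fintype A] (p : A → V)
    (ω : A → ℕ) : Prop :=
  ∃ (m : Fin k → A → A → ℕ) (z : Fin k → A → ℕ), IsState R k p ω m z

/-- The edge-ends at `a`: `none` stands for the outer vertex. -/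
def ends {A : Type} (m : A → A → ℕ) (z : A → ℕ) (a : A) (x : Option A) : ℕ :=
  x.elim (z a) (m a)

/-- The multigraph without the vertex `a`, as a graph on `A` and the outer vertex `none`
(in which `some a` is isolated). -/
def Gr {A : Type} (m : A → A → ℕ) (z : A → ℕ) (a : A) : SimpleGraph (Option A) :=
  SimpleGraph.fromRel fun x y =>
    (∃ u v, x = some u ∧ y = some v ∧ u ≠ a ∧ v ≠ a ∧ 0 < m u v) ∨
    (∃ u, x = some u ∧ y = none ∧ u ≠ a ∧ 0 < z u)

/-- The multigraph after moving the `a`-ends of `t x` of the edges between `a` and `x` to a new
vertex `none` (for `x = some a`: one end of each of `t (some a)` loops). -/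
def mNew {A : Type} [DecidableEq A] (m : A → A → ℕ) (a : A) (t : Option A → ℕ) :
    Option A → Option A → ℕ
  | some u, some v =>
      if u = a then (if v = a then m a a - 2 * t (some a) else m a v - t (some v))
      else if v = a then m u a - t (some u) else m u v
  | some u, none => t (some u)
  | none, some v => t (some v)
  | none, none => 0

/-- The edges to the outer vertex after the move. -/
def zNew {A : Type} [DecidableEq A] (z : A → ℕ) (a : A) (t : Option A → ℕ) : Option A → ℕ
  | some u => if u = a then z a - t none else z u
  | none => t none

open Classical in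
/-- The multiplicities in the amalgamated graph. -/
noncomputable def mul {V : Type} (R : V → V → Prop) (τ : V → ℕ) (u v : V) : ℕ :=
  if R u v then (if u = v then τ u * (τ u - 1) else τ u * τ v) else 0

open Classical in
/-- The degree of the vertices in class `v`. -/
noncomputable def wdeg {V : Type} [Fintype V] (R : V → V → Prop) (τ : V → ℕ) (v : V) : ℕ :=
  ∑ u, if R v u then (if v = u then τ v - 1 else τ u) else 0

end Pool.Agent.N347.LA
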