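import Pool.Agent.N347.LA.Step

/-!
# LA/ITER: iterate the splitting step

By helper765.  Uses `Pool.Agent.N347.LA.Step.step`.
-/

set_option autoImplicit false

namespace Pool.Agent.N347.LA.Iter

open Finset Pool.Agent.N347.LA

/-- the statement of the step -/
def StepStm : Prop := ∀ (V A : Type) [Fintype A] [DecidableEq A] (R : V → V → Prop),
  (∀ u v, R u v → R v u) → ∀ (k : ℕ) (p : A → V) (ω : A → ℕ) (a : A), 2 ≤ ω a →
    HasState R k p ω →
    HasState R k (fun o : Option A => o.elim (p a) p)
      (fun o : Option A => o.elim 1 (fun x => if x = a then ω a - 1 else ω x))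

open Classical in
/-- LA/ITER, from the step -/
theorem iter_of (hstep : StepStm) {V : Type} (R : V → V → Prop) (hR : ∀ u v, R u v → R v u)
    (k : ℕ) : ∀ (N : ℕ) (A : Type) [Fintype A] (p : A → V)
    (ω : A → ℕ), ∑ a, (ω a - 1) = N → HasState R k p ω →
    ∃ (B : Type) (_ : Fintype B) (q : B → V),
      (∀ v, (univ.filter (fun b => q b = v)).card = ∑ a ∈ univ.filter (fun a => p a = v), ω a) ∧
      HasState R k q (fun _ => 1) := by
  intro N
  induction N with
  | zero =>
    intro A _ p ω hsum h
    have hω : ω = fun _ => 1 := by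
      obtain ⟨m, z, hs⟩ := h
      funext a
      have h1 := hs.pos a
      have h2 := (Finset.sum_eq_zero_iff.1 hsum) a (mem_univ a)
      omega
    subst hω
    exact ⟨A, inferInstance, p, fun v => card_eq_sum_ones _, h⟩
  | succ N ih =>
    intro A _ p ω hsum h
    obtain ⟨a, ha⟩ : ∃ a, 2 ≤ ω a := by
      by_contra hcon
      push Not at hcon
      have : ∑ a, (ω a - 1) = 0 := sum_eq_zero fun a _ => by
        have := hcon a
        omega
      omega
    have h1 := hstep V A R hR k p ω a ha h
    obtain ⟨B, hB, q, hq, hq'⟩ := ih (Option A) _ _ (by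
      rw [Fintype.sum_option]
      have h2 := Finset.add_sum_erase univ (fun x => ω x - 1) (mem_univ a)
      have h3 := Finset.add_sum_erase univ
        (fun x => (if x = a then ω a - 1 else ω x) - 1) (mem_univ a)
      have h4 : ∑ x ∈ univ.erase a, ((if x = a then ω a - 1 else ω x) - 1) =
          ∑ x ∈ univ.erase a, (ω x - 1) :=
        sum_congr rfl fun x hx => by rw [if_neg (ne_of_mem_erase hx)]
      simp only [if_pos] at h3
      rw [h4] at h3
      show 1 - 1 + ∑ x, ((if x = a then ω a - 1 else ω x) - 1) = N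
      omega) h1
    refine ⟨B, hB, q, fun v => ?_, hq'⟩
    rw [hq v, sum_filter, sum_filter, Fintype.sum_option]
    have h2 := Finset.add_sum_erase univ (fun x => if p x = v then ω x else 0) (mem_univ a)
    have h3 := Finset.add_sum_erase univ
      (fun x => if p x = v then (if x = a then ω a - 1 else ω x) else 0) (mem_univ a)
    have h4 : ∑ x ∈ univ.erase a, (if p x = v then (if x = a then ω a - 1 else ω x) else 0) =
        ∑ x ∈ univ.erase a, (if p x = v then ω x else 0) :=
      sum_congr rfl fun x hx => by rw [if_neg (ne_of_mem_erase hx)]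
    simp only [if_pos] at h3
    rw [h4] at h3
    show (if p a = v then 1 else 0) +
      ∑ x, (if p x = v then (if x = a then ω a - 1 else ω x) else 0) = _
    by_cases hv : p a = v
    · rw [if_pos hv] at h2 h3 ⊢
      omega
    · rw [if_neg hv] at h2 h3 ⊢
      omega

open Classical in
/-- LA/ITER -/
theorem iter {V : Type} (R : V → V → Prop) (hR : ∀ u v, R u v → R v u) (k : ℕ) :
    ∀ (N : ℕ) (A : Type) [Fintype A] (p : A → V)
    (ω : A → ℕ), ∑ a, (ω a - 1) = N → HasState R k p ω →
    ∃ (B : Type) (_ : Fintype B) (q : B → V),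
      (∀ v, (univ.filter (fun b => q b = v)).card = ∑ a ∈ univ.filter (fun a => p a = v), ω a) ∧
      HasState R k q (fun _ => 1) :=
  iter_of (fun _ _ _ _ R hR k p ω a ha h => Pool.Agent.N347.LA.Step.step R hR k p ω a ha h) R hR k

end Pool.Agent.N347.LA.Iter
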