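import Pool.Agent.N767.LA_INIT
import Pool.Agent.N407.LA_COMP_BOUND
import Pool.Agent.N347.LA.Iter
import Pool.Agent.N438.LA_FINAL

set_option autoImplicit false

/-! Initial states from heavy pairs, and the resulting coverings by linear forests. -/

namespace Pool.Agent.N347.LA

open Finset

theorem mul_symm {V : Type} (R : V → V → Prop) (hR : ∀ u v, R u v → R v u) (τ : V → ℕ)
    (u v : V) : mul R τ u v = mul R τ v u := by
  unfold mul
  by_cases h : R u v
  · have h' : R v u := hR _ _ h
    rw [if_pos h, if_pos h']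
    by_cases e : u = v
    · subst e; rfl
    · rw [if_neg e, if_neg (Ne.symm e), Nat.mul_comm]
  · have h' : ¬ R v u := fun hh => h (hR _ _ hh)
    rw [if_neg h, if_neg h']

theorem mul_diag_even {V : Type} (R : V → V → Prop) (τ : V → ℕ) (v : V) :
    Even (mul R τ v v) := by
  unfold mul
  rw [if_pos (rfl : v = v)]
  split_ifs
  · exact Nat.even_mul_pred_self _
  · exact ⟨0, rfl⟩

theorem mul_row {V : Type} [Fintype V] (R : V → V → Prop) (τ : V → ℕ) (v : V) :
    ∑ u, mul R τ v u = τ v * wdeg R τ v := by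
  unfold mul wdeg
  rw [mul_sum]
  refine sum_congr rfl fun u _ => ?_
  split_ifs <;> simp

open Classical in
/-- LA/HSJ -/
theorem hasState_J {V : Type} [Fintype V] (R : V → V → Prop) (hR : ∀ u v, R u v → R v u) (k : ℕ)
    (τ : V → ℕ) (hτ : ∀ v, 1 ≤ τ v) (J : V → V → ℕ) (hJs : ∀ u v, J u v = J v u)
    (hJd : ∀ v, J v v = 0) (hJe : ∀ v, Even (∑ u, J v u))
    (hJT : ∀ u v, k * J u v ≤ mul R τ u v) (hd : ∀ v, wdeg R τ v ≤ 2 * k)
    (hz : ∀ v, 2 * k ≤ ∑ u ∈ univ.filter (fun u =>
      Relation.ReflTransGen (fun x y => 0 < J x y) v u), τ u * (2 * k - wdeg R τ u)) :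
    HasState R k (fun v : V => v) τ := by
  obtain ⟨m, z, h1, h2, h3, h4, h5⟩ := Pool.Agent.N767.LAINIT.init k (mul R τ) τ J
    (mul_symm R hR τ) (mul_diag_even R τ) hJs hJd hJe hJT
    (fun v => by
      rw [mul_row, Nat.mul_comm]
      exact Nat.mul_le_mul_right _ (hd v))
    (fun v => by
      refine (hz v).trans (le_of_eq (sum_congr rfl fun u _ => ?_))
      rw [mul_row, Nat.mul_sub]
      congr 1
      ring)
  refine ⟨m, z, ⟨hτ, h1, h2, h3, fun a b hab hr => ?_, fun a hr => ?_, fun c a b hr => ?_, h5⟩⟩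
  · rw [h4]
    unfold mul
    rw [if_pos hr, if_neg hab]
  · rw [h4]
    unfold mul
    rw [if_pos hr, if_pos rfl]
  · have h6 : ∑ c, m c a b = 0 := by
      rw [h4]
      unfold mul
      rw [if_neg hr]
    exact sum_eq_zero_iff.1 h6 c (mem_univ _)

/-- LA/CST -/
theorem cov_of_state {V W : Type} [Fintype V] [Finite W] (R : V → V → Prop)
    (hR : ∀ u v, R u v → R v u) (k : ℕ) (τ : V → ℕ) (f : W → V)
    (hf : ∀ v, {x | f x = v}.ncard = τ v) (G : SimpleGraph W)
    (hG : ∀ x y, G.Adj x y ↔ x ≠ y ∧ R (f x) (f y))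
    (h : HasState R k (fun v : V => v) τ) : H931R3.LA.Cov G k := by
  classical
  obtain ⟨B, hB, q, hq, hs⟩ := Iter.iter R hR k _ V (fun v => v) τ rfl h
  refine Pool.Agent.N438.LAFINAL.final R hR k q f G hG (fun v => ?_) hs
  rw [hf]
  have h1 := hq v
  have h2 : {b | q b = v} = ((univ.filter (fun b => q b = v) : Finset B) : Set B) := by
    ext b
    simp
  rw [h2, Set.ncard_coe_finset]
  have h3 : ∑ a ∈ univ.filter (fun a : V => a = v), τ a = τ v := by
    rw [Finset.filter_eq' univ v, if_pos (mem_univ v), sum_singleton]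
  rw [← h3]
  convert h1.symm

/-- The blow-up relation of `H`. -/
def Rel {V : Type} (H : SimpleGraph V) (c : Bool) (u v : V) : Prop :=
  H.Adj u v ∨ (u = v ∧ c = true)

theorem Rel_symm {V : Type} (H : SimpleGraph V) (c : Bool) (u v : V) (h : Rel H c u v) :
    Rel H c v u :=
  h.imp (fun h => h.symm) (fun h => ⟨h.1.symm, h.2⟩)

theorem wdeg_Rel {V : Type} [Fintype V] (H : SimpleGraph V) (c : Bool) (m : ℕ) (v : V) :
    wdeg (Rel H c) (fun _ => m) v = (H.neighborSet v).ncard * m + if c then m - 1 else 0 := by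
  classical
  unfold wdeg
  rw [← Finset.add_sum_erase univ _ (mem_univ v)]
  rw [if_pos (rfl : v = v)]
  have h1 : ∑ x ∈ univ.erase v, (if Rel H c v x then (if v = x then m - 1 else m) else 0) =
      ∑ x ∈ univ.erase v, (if H.Adj v x then m else 0) := by
    refine sum_congr rfl fun x hx => ?_
    have hx' : x ≠ v := ne_of_mem_erase hx
    unfold Rel
    by_cases ha : H.Adj v x
    · rw [if_pos (Or.inl ha), if_neg (Ne.symm hx'), if_pos ha]
    · rw [if_neg ha, if_neg]
      rintro (h | h)
      · exact ha h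
      · exact hx' h.1.symm
  have h2 : ∑ x ∈ univ.erase v, (if H.Adj v x then m else 0) =
      ∑ x, (if H.Adj v x then m else 0) := by
    rw [← Finset.add_sum_erase univ (fun x => if H.Adj v x then m else 0) (mem_univ v)]
    simp
  have h3 : ∑ x, (if H.Adj v x then m else 0) = (H.neighborSet v).ncard * m := by
    rw [← sum_filter, sum_const, smul_eq_mul]
    congr 1
    rw [← Set.ncard_coe_finset]
    congr 1
    ext x
    simp
  have h4 : (if Rel H c v v then m - 1 else 0) = if c then m - 1 else 0 := by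
    unfold Rel
    cases c <;> simp
  have h5 : ∑ x ∈ univ.erase v, (if Rel H c v x then (if v = x then m - 1 else m) else 0) =
      (H.neighborSet v).ncard * m := by rw [h1, h2, h3]
  have h6 : (if Rel H c v v then m - 1 else 0) + (H.neighborSet v).ncard * m =
      (H.neighborSet v).ncard * m + if c then m - 1 else 0 := by rw [h4, Nat.add_comm]
  rw [← h6, ← h5]

/-- LA/REG -/
theorem cov_reg {V W : Type} [Finite V] [Finite W] (H : SimpleGraph V) (c : Bool) (d m k : ℕ)
    (hm : 1 ≤ m) (hH : ∀ v, (H.neighborSet v).ncard = d)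
    (hk : d * m + (if c then m - 1 else 0) + 1 ≤ 2 * k)
    (hkm : (0 < d → 2 * k ≤ m ^ 2) ∨ (Even d ∧ k ≤ m ^ 2))
    (f : W → V) (hf : ∀ v, {x | f x = v}.ncard = m) (G : SimpleGraph W)
    (hG : ∀ x y, G.Adj x y ↔ x ≠ y ∧ (H.Adj (f x) (f y) ∨ (f x = f y ∧ c = true))) :
    H931R3.LA.Cov G k := by
  classical
  have : Fintype V := Fintype.ofFinite V
  obtain ⟨b, hb1, hb2, hb3⟩ : ∃ b : ℕ, (∀ v : V, 0 < (H.neighborSet v).ncard → 0 < b) ∧
      (0 < d → k * b ≤ m ^ 2) ∧ Even (b * d) := by
    rcases hkm with h | ⟨h, h'⟩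
    · exact ⟨2, fun _ _ => by norm_num, fun hd => by linarith [h hd], ⟨d, by ring⟩⟩
    · exact ⟨1, fun _ _ => by norm_num, fun _ => by linarith, by simpa using h⟩
  have hwd : ∀ v, wdeg (Rel H c) (fun _ => m) v = d * m + if c then m - 1 else 0 := fun v => by
    rw [wdeg_Rel, hH]
  have hreach : ∀ v u, Relation.ReflTransGen (Rel H c) v u ↔
      Relation.ReflTransGen (fun x y => 0 < if H.Adj x y then b else 0) v u := by
    intro v u
    constructor
    · intro h
      induction h with
      | refl => exact Relation.ReflTransGen.refl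
      | @tail y z _ h2 ih =>
        rcases h2 with h2 | h2
        · refine ih.tail ?_
          show 0 < if H.Adj y z then b else 0
          rw [if_pos h2]
          refine hb1 y ?_
          rw [Set.ncard_pos (Set.toFinite _)]
          exact ⟨z, h2⟩
        · rw [← h2.1]; exact ih
    · intro h
      induction h with
      | refl => exact Relation.ReflTransGen.refl
      | @tail y z _ h2 ih =>
        refine ih.tail ?_
        by_cases ha : H.Adj y z
        · exact Or.inl ha
        · simp [ha] at h2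
  refine cov_of_state (Rel H c) (Rel_symm H c) k (fun _ => m) f hf G hG ?_
  refine hasState_J (Rel H c) (Rel_symm H c) k (fun _ => m) (fun _ => hm)
    (fun u v => if H.Adj u v then b else 0) ?_ ?_ ?_ ?_ ?_ ?_
  · intro u v
    simp only [H.adj_comm u v]
  · intro v
    simp
  · intro v
    have : ∑ u, (if H.Adj v u then b else 0) = b * d := by
      rw [← sum_filter, sum_const, smul_eq_mul, mul_comm, ← hH v]
      congr 1
      rw [← Set.ncard_coe_finset]
      congr 1
      ext x
      simp
    rw [this]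
    exact hb3
  · intro u v
    show k * (if H.Adj u v then b else 0) ≤ _
    by_cases ha : H.Adj u v
    · rw [if_pos ha]
      have hr : Rel H c u v := Or.inl ha
      unfold mul
      rw [if_pos hr, if_neg ha.ne]
      have hd : 0 < d := by
        rw [← hH u, Set.ncard_pos (Set.toFinite _)]
        exact ⟨v, ha⟩
      have := hb2 hd
      rw [pow_two] at this
      exact this
    · rw [if_neg ha]
      simp
  · intro v
    rw [hwd]
    omega
  · intro v
    have h1 := Pool.Agent.N407.LACOMP_BOUND.comp_bound (Rel H c) (Rel_symm H c) k (fun _ => m)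
      (fun _ => hm) (fun u => by rw [hwd]; omega) v
    refine h1.trans (le_of_eq ?_)
    refine sum_congr ?_ fun _ _ => rfl
    ext u
    simp only [mem_filter, mem_univ, true_and]
    exact hreach v u

end Pool.Agent.N347.LA
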