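import Pool.Agent.N347.LA.Defs

set_option autoImplicit false

/-! Twins. -/

namespace Pool.Agent.N347.LA

/-- `u` and `w` have the same neighbours outside `{u, w}`: they are equal or open or closed twins. -/
def Twin {W : Type} (G : SimpleGraph W) (u w : W) : Prop :=
  ∀ x, x ≠ u → x ≠ w → (G.Adj u x ↔ G.Adj w x)

/-- The number of vertices of the twin class of `u`. -/
noncomputable def tau {W : Type} (G : SimpleGraph W) (u : W) : ℕ :=
  {w | Twin G u w}.ncard

/-- `u` and `w` are twins, or they are adjacent and their twin classes span at least `2 k` pairs. -/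
def Link {W : Type} (G : SimpleGraph W) (k : ℕ) (u w : W) : Prop :=
  Twin G u w ∨ (G.Adj u w ∧ 2 * k ≤ tau G u * tau G w)

end Pool.Agent.N347.LA
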